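import Pool.Agent.Z705.Defs
import Pool.Agent.Z927.GENb

/-!
`S_GENb` of the project Z705: the sum over the genus characters for a fixed `b`, with doubly inert
primes `3` and `5` modulo `8` (adaptation of `Pool.Agent.Z759.BSD.GENbB`).
-/

set_option autoImplicit false

namespace Pool.Agent.Y614.Z705

open Finset
open Pool.Agent.Z700 (pr chi3 fac hh od)
open Pool.Agent.Z701 (wt)
open Pool.Agent.Z927 (pm_prod pm_pow js_prod_left js_pr pr_erase pr_coprime ee S3 mem_S3 mem_S3'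
  js_unit s_unit D_decomp)
open Pool.Agent.Y17.N (Sp)
open Pool.Agent.Y17.G (In sp i3 i5 Cl Ty adm ex Cond cnd TC S_ABS1 S_ABS2 S_ABS3)

/-- split or doubly inert, different from three -/
def SN (p : ℕ) : Prop := (Sp p ∨ In p) ∧ p ≠ 3

theorem sn_facts {p : ℕ} (hp : SN p) :
    p.Prime ∧ p ≠ 2 ∧ p ≠ 3 ∧ p ≠ 7 ∧ Odd p ∧ (p % 8 = 1 ∨ p % 8 = 3 ∨ p % 8 = 5) := by
  obtain ⟨⟨h1, h2, h3⟩ | ⟨h1, h2, h3⟩, h4⟩ := hp
  · refine ⟨h1, ?_, h4, ?_, Nat.odd_iff.2 ?_, Or.inl h2⟩ <;> omega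
  · refine ⟨h1, ?_, h4, ?_, Nat.odd_iff.2 ?_, Or.inr h2⟩ <;> omega

theorem neg_one_1 {p : ℕ} (hp : p % 4 = 1) : jacobiSym (-1) p = 1 := by
  rw [jacobiSym.at_neg_one (Nat.odd_iff.2 (by omega))]
  exact ZMod.χ₄_nat_one_mod_four hp

theorem neg_one_3 {p : ℕ} (hp : p % 4 = 3) : jacobiSym (-1) p = -1 := by
  rw [jacobiSym.at_neg_one (Nat.odd_iff.2 (by omega))]
  exact ZMod.χ₄_nat_three_mod_four hp

theorem neg_one_unit {n : ℕ} (hn : Odd n) : jacobiSym (-1) n = 1 ∨ jacobiSym (-1) n = -1 := by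
  rw [Nat.odd_iff] at hn
  have : n % 4 = 1 ∨ n % 4 = 3 := by omega
  rcases this with h | h
  · exact Or.inl (neg_one_1 h)
  · exact Or.inr (neg_one_3 h)

theorem sn_two_seven {p : ℕ} (hp : SN p) :
    jacobiSym 2 p * jacobiSym 7 p = jacobiSym (-1) p := by
  obtain ⟨h1, h2, h3, h4, h6, h7⟩ := sn_facts hp
  rw [jacobiSym.at_two h6, ZMod.χ₈_nat_eq_if_mod_eight]
  have h20 : ¬ p % 2 = 0 := by rw [Nat.odd_iff] at h6; omega
  rcases hp.1 with ⟨-, h8, h9⟩ | ⟨-, h8, h9⟩
  · have e := jacobiSym.quadratic_reciprocity_one_mod_four (a := p) (by omega) (b := 7) (by decide)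
    have e7 : jacobiSym 7 p = jacobiSym (p : ℤ) 7 := by exact_mod_cast e.symm
    have : (p : ℤ) % (7 : ℕ) = 1 ∨ (p : ℤ) % (7 : ℕ) = 2 ∨ (p : ℤ) % (7 : ℕ) = 4 := by
      push_cast; omega
    have e2 : jacobiSym ((p : ℤ) % (7 : ℕ)) 7 = 1 := by
      rcases this with h | h | h <;> rw [h]
      · exact jacobiSym.one_left 7
      · norm_num
      · norm_num
    rw [e7, jacobiSym.mod_left, e2, h8, neg_one_1 (by omega)]
    simp [h20]
  · have : (p : ℤ) % (7 : ℕ) = 3 ∨ (p : ℤ) % (7 : ℕ) = 5 ∨ (p : ℤ) % (7 : ℕ) = 6 := by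
      push_cast; omega
    have e2 : jacobiSym ((p : ℤ) % (7 : ℕ)) 7 = -1 := by
      rcases this with h | h | h <;> rw [h] <;> norm_num
    rcases h8 with h8 | h8
    · have e := jacobiSym.quadratic_reciprocity_three_mod_four (a := 7) (b := p) (by norm_num)
        (by omega)
      have e7 : jacobiSym 7 p = -jacobiSym (p : ℤ) 7 := by exact_mod_cast e
      rw [e7, jacobiSym.mod_left, e2, h8, neg_one_3 (by omega)]
      simp [h20]
    · have e := jacobiSym.quadratic_reciprocity_one_mod_four (a := p) (by omega) (b := 7)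
        (by decide)
      have e7 : jacobiSym 7 p = jacobiSym (p : ℤ) 7 := by exact_mod_cast e.symm
      rw [e7, jacobiSym.mod_left, e2, h8, neg_one_1 (by omega)]
      simp [h20]

theorem unit_of {a : ℕ} (ha : a.Prime) {p : ℕ} (hp : p.Prime) (h : a ≠ p) :
    jacobiSym (a : ℤ) p = 1 ∨ jacobiSym (a : ℤ) p = -1 :=
  js_unit ((Nat.coprime_primes ha hp).2 h)

theorem sn_two_unit {p : ℕ} (hp : SN p) : jacobiSym 2 p = 1 ∨ jacobiSym 2 p = -1 := by
  have := unit_of Nat.prime_two (sn_facts hp).1 (Ne.symm (sn_facts hp).2.1)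
  exact_mod_cast this

theorem sn_three_unit {p : ℕ} (hp : SN p) : jacobiSym 3 p = 1 ∨ jacobiSym 3 p = -1 := by
  have := unit_of Nat.prime_three (sn_facts hp).1 (Ne.symm (sn_facts hp).2.2.1)
  exact_mod_cast this

theorem sn_seven_unit {p : ℕ} (hp : SN p) : jacobiSym 7 p = 1 ∨ jacobiSym 7 p = -1 := by
  have := unit_of (by norm_num : Nat.Prime 7) (sn_facts hp).1 (Ne.symm (sn_facts hp).2.2.2.1)
  exact_mod_cast this

theorem ee_unit {P : Finset ℕ} (hP : ∀ p ∈ P, SN p) {D l : ℕ} (hl : l ∈ S3 D) {p : ℕ} (hp : p ∈ P) :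
    ee P l p = 1 ∨ ee P l p = -1 := by
  obtain ⟨-, -, -, hlp, -⟩ := mem_S3 hl
  have hpp := (sn_facts (hP p hp)).1
  rw [ee]
  split_ifs with h
  · exact js_unit (pr_coprime (fun q hq => (sn_facts (hP q (Finset.mem_of_mem_erase hq))).1) hpp
      (Finset.notMem_erase _ _))
  · exact js_unit ((Nat.coprime_primes hpp hlp).2 (fun e => h e.symm))

theorem sq_unit {x : ℤ} (h : x = 1 ∨ x = -1) : x ^ 2 = 1 := by
  rcases h with h | h <;> rw [h] <;> norm_num

/-- primes of the family dividing `D` divide it exactly once -/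
theorem sn_div {P : Finset ℕ} (hP : ∀ p ∈ P, SN p) {b : ℤ} {D : ℕ} (hD : 0 < D)
    (hDD : (D : ℤ) = 9 * (pr P : ℤ) - b ^ 2) {p : ℕ} (hp : p ∈ P) (hpD : p ∣ D) :
    ∃ D' : ℕ, D = p * D' ∧ ¬ p ∣ D' ∧ D.factorization p = 1 ∧
      jacobiSym (D' : ℤ) p = jacobiSym (pr (P.erase p) : ℤ) p := by
  have hpp := (sn_facts (hP p hp)).1
  obtain ⟨D', rfl⟩ := hpD
  have e1 : (pr P : ℤ) = p * (pr (P.erase p) : ℤ) := by
    rw [pr_erase hp]; push_cast; ring
  have hb : (p : ℤ) ∣ b := by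
    have : (p : ℤ) ∣ b ^ 2 := by
      refine ⟨9 * pr (P.erase p) - D', ?_⟩
      push_cast at hDD
      rw [e1] at hDD
      linarith
    exact (Nat.prime_iff_prime_int.1 hpp).dvd_of_dvd_pow this
  obtain ⟨c, rfl⟩ := hb
  have hp0 : (p : ℤ) ≠ 0 := by exact_mod_cast hpp.ne_zero
  have e2 : (D' : ℤ) = 9 * pr (P.erase p) - p * c ^ 2 := by
    push_cast at hDD
    rw [e1] at hDD
    have : (p : ℤ) * D' = p * (9 * pr (P.erase p) - p * c ^ 2) := by linarith
    exact mul_left_cancel₀ hp0 this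
  have hcop : Nat.Coprime (pr (P.erase p)) p :=
    pr_coprime (fun q hq => (sn_facts (hP q (Finset.mem_of_mem_erase hq))).1) hpp
      (Finset.notMem_erase _ _)
  have h3 := (sn_facts (hP p hp)).2.2.1
  have hcop9 : Nat.Coprime 9 p := by
    have : Nat.Coprime 3 p := (Nat.coprime_primes Nat.prime_three hpp).2 (fun e => h3 e.symm)
    exact Nat.Coprime.pow_left 2 this
  have hn : ¬ p ∣ D' := by
    intro h
    have h1 : (p : ℤ) ∣ 9 * pr (P.erase p) := by
      have : (9 : ℤ) * pr (P.erase p) = D' + p * c ^ 2 := by rw [e2]; ring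
      rw [this]
      exact dvd_add (by exact_mod_cast h) (Dvd.intro _ rfl)
    have h2 : p ∣ 9 * pr (P.erase p) := by exact_mod_cast h1
    have h4 : Nat.Coprime p (9 * pr (P.erase p)) := (Nat.Coprime.mul_left hcop9 hcop).symm
    have := Nat.Coprime.eq_one_of_dvd h4 h2
    exact hpp.one_lt.ne' this
  refine ⟨D', rfl, hn, ?_, ?_⟩
  · have hD' : D' ≠ 0 := by
      rintro rfl
      simp at hD
    rw [Nat.factorization_mul hpp.ne_zero hD', Finsupp.add_apply, hpp.factorization_self,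
      Nat.factorization_eq_zero_of_not_dvd hn]
  · have h5 : (D' : ℤ) % p = (9 * pr (P.erase p)) % p := by
      rw [e2, Int.sub_mul_emod_self_left]
    rw [jacobiSym.mod_left' h5, jacobiSym.mul_left]
    have : jacobiSym 9 p = 1 := by
      have : (9 : ℤ) = 3 ^ 2 := by norm_num
      rw [this, jacobiSym.pow_left]
      exact sq_unit (sn_three_unit (hP p hp))
    rw [this, one_mul]

/-- the local factor as a geometric sum -/
theorem fac_eq {P : Finset ℕ} (hP : ∀ p ∈ P, SN p) {b : ℤ} {D : ℕ} (hD : 0 < D)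
    (hDD : (D : ℤ) = 9 * (pr P : ℤ) - b ^ 2) {l : ℕ} (hl : l ∈ S3 D) {D1 : Finset ℕ}
    (h1 : D1 ⊆ P) :
    fac (3 * pr D1) D l = ∑ j ∈ range (D.factorization l + 1),
      (jacobiSym (-3) l * ∏ p ∈ D1, ee P l p) ^ j := by
  obtain ⟨h3, h7, h2, hlp, hlD⟩ := mem_S3 hl
  by_cases hd : l ∈ D1
  · obtain ⟨D', hD1, hD2, hD3, hD4⟩ := sn_div hP hD hDD (h1 hd) hlD
    have e1 : 3 * pr D1 = l * (3 * pr (D1.erase l)) := by rw [pr_erase hd]; ring
    have hdiv : l ∣ 3 * pr D1 := by rw [e1]; exact Dvd.intro _ rfl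
    rw [fac, if_pos hdiv, hD3, hh, hD3, if_neg (by decide)]
    have e2 : 3 * pr D1 / l = 3 * pr (D1.erase l) := by
      rw [e1, Nat.mul_div_cancel_left _ hlp.pos]
    have e3 : D / l ^ 1 = D' := by rw [pow_one, hD1, Nat.mul_div_cancel_left _ hlp.pos]
    rw [e2, e3, Finset.sum_range_succ, Finset.sum_range_one, pow_zero, pow_one]
    congr 1
    have e4 : (-((3 * pr (D1.erase l) * D' : ℕ) : ℤ)) = (-3) * (pr (D1.erase l) : ℤ) * (D' : ℤ) := by
      push_cast; ring
    rw [e4, jacobiSym.mul_left, jacobiSym.mul_left, hD4, js_pr (D1.erase l),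
      ← Finset.mul_prod_erase D1 (fun p => ee P l p) hd]
    have e5 : ee P l l = jacobiSym (pr (P.erase l) : ℤ) l := by rw [ee, if_pos rfl]
    have e6 : ∏ p ∈ D1.erase l, ee P l p = ∏ p ∈ D1.erase l, jacobiSym (p : ℤ) l := by
      refine Finset.prod_congr rfl fun p hp => ?_
      rw [ee, if_neg]
      rintro rfl
      exact (Finset.mem_erase.1 hp).1 rfl
    rw [e5, e6]
    ring
  · have hdiv : ¬ l ∣ 3 * pr D1 := by
      intro h
      have c1 : Nat.Coprime (pr D1) l :=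
        pr_coprime (fun q hq => (sn_facts (hP q (h1 hq))).1) hlp hd
      have c2 : Nat.Coprime 3 l := (Nat.coprime_primes Nat.prime_three hlp).2 (fun e => h3 e.symm)
      exact hlp.one_lt.ne' (Nat.Coprime.eq_one_of_dvd (Nat.Coprime.mul_left c2 c1).symm h)
    rw [fac, if_neg hdiv]
    refine Finset.sum_congr rfl fun j _ => ?_
    congr 1
    have e4 : (-((3 * pr D1 : ℕ) : ℤ)) = (-3) * (pr D1 : ℤ) := by push_cast; ring
    rw [e4, jacobiSym.mul_left, js_pr]
    congr 1
    refine Finset.prod_congr rfl fun p hp => ?_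
    rw [ee, if_neg]
    rintro rfl
    exact hd hp

/-! ### reciprocity -/

/-- the sign in the reciprocity law -/
def uu (p l : ℕ) : ℤ := if p % 4 = 1 then 1 else jacobiSym (-1) l

theorem js_swap {p l : ℕ} (hp : SN p) (hl : Odd l) :
    jacobiSym (p : ℤ) l = uu p l * jacobiSym (l : ℤ) p := by
  obtain ⟨h1, h2, h3, h4, h6, h7⟩ := sn_facts hp
  unfold uu
  split_ifs with h
  · rw [one_mul]
    exact jacobiSym.quadratic_reciprocity_one_mod_four h hl
  · have h8 : p % 4 = 3 := by omega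
    have h9 := Nat.odd_iff.1 hl
    have h10 : l % 4 = 1 ∨ l % 4 = 3 := by omega
    rcases h10 with h10 | h10
    · rw [neg_one_1 h10, one_mul]
      exact (jacobiSym.quadratic_reciprocity_one_mod_four h10 h6).symm
    · rw [neg_one_3 h10, neg_one_mul]
      exact jacobiSym.quadratic_reciprocity_three_mod_four h8 h10

theorem uu_unit {p l : ℕ} (hl : Odd l) : uu p l = 1 ∨ uu p l = -1 := by
  unfold uu
  split_ifs
  · exact Or.inl rfl
  · exact neg_one_unit hl

theorem uu_mul (p : ℕ) {a b : ℕ} (ha : a ≠ 0) (hb : b ≠ 0) : uu p (a * b) = uu p a * uu p b := by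
  unfold uu
  split_ifs
  · rw [one_mul]
  · exact jacobiSym.mul_right' _ ha hb

theorem uu_one (p : ℕ) : uu p 1 = 1 := by
  unfold uu
  split_ifs
  · rfl
  · exact jacobiSym.one_right _

theorem uu_pow (p : ℕ) {a : ℕ} (ha : a ≠ 0) (n : ℕ) : uu p (a ^ n) = uu p a ^ n := by
  induction n with
  | zero => rw [pow_zero, pow_zero, uu_one]
  | succ n ih => rw [pow_succ, pow_succ, uu_mul p (pow_ne_zero n ha) ha, ih]

theorem uu_prod (p : ℕ) (s : Finset ℕ) (f : ℕ → ℕ) (hs : ∀ l ∈ s, l ≠ 0) :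
    uu p (∏ l ∈ s, l ^ f l) = ∏ l ∈ s, (uu p l) ^ f l := by
  classical
  induction s using Finset.induction_on with
  | empty => rw [Finset.prod_empty, Finset.prod_empty, uu_one]
  | insert a t ha ih =>
    rw [Finset.prod_insert ha, Finset.prod_insert ha, uu_mul, uu_pow, ih]
    · exact fun l hl => hs l (Finset.mem_insert_of_mem hl)
    · exact hs a (Finset.mem_insert_self _ _)
    · exact pow_ne_zero _ (hs a (Finset.mem_insert_self _ _))
    · exact Finset.prod_ne_zero_iff.2 fun l hl =>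
        pow_ne_zero _ (hs l (Finset.mem_insert_of_mem hl))

theorem uu_self {p : ℕ} (hp : SN p) : uu p p * jacobiSym (-1) p = 1 := by
  obtain ⟨h1, h2, h3, h4, h6, h7⟩ := sn_facts hp
  unfold uu
  split_ifs with h
  · rw [neg_one_1 h, one_mul]
  · rw [neg_one_3 (by omega)]
    norm_num

theorem pm_cancel {x y : ℤ} (hx : x = 1 ∨ x = -1) (h : x * y = 1) : y = x := by
  rcases hx with h1 | h1 <;> rw [h1] at h ⊢ <;> linarith

/-- the total character -/
theorem ee_total {P : Finset ℕ} (hP : ∀ p ∈ P, SN p) {b : ℤ} {D : ℕ} (hD : 0 < D)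
    (hDD : (D : ℤ) = 9 * (pr P : ℤ) - b ^ 2) {p : ℕ} (hp : p ∈ P) :
    ∏ l ∈ S3 D, (ee P l p) ^ (D.factorization l) =
      uu p (∏ l ∈ S3 D, l ^ D.factorization l) * (jacobiSym (-1) p *
        (jacobiSym 2 p ^ D.factorization 2 *
        (jacobiSym 7 p ^ D.factorization 7 * jacobiSym 3 p ^ D.factorization 3))) := by
  have hF := hP p hp
  have hpp := (sn_facts hF).1
  have hodd : ∀ l ∈ S3 D, Odd l := by
    intro l hl
    obtain ⟨-, -, h2, hlp, -⟩ := mem_S3 hl
    exact hlp.odd_of_ne_two h2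
  have hne : ∀ l ∈ S3 D, l ≠ 0 := fun l hl => (mem_S3 hl).2.2.2.1.ne_zero
  have hsw : ∀ s : Finset ℕ, s ⊆ S3 D → p ∉ s → ∏ l ∈ s, (ee P l p) ^ (D.factorization l) =
      uu p (∏ l ∈ s, l ^ D.factorization l) *
        jacobiSym ((∏ l ∈ s, l ^ D.factorization l : ℕ) : ℤ) p := by
    intro s hs hps
    rw [uu_prod p s _ fun l hl => hne l (hs hl)]
    push_cast
    rw [js_prod_left, ← Finset.prod_mul_distrib]
    refine Finset.prod_congr rfl fun l hl => ?_
    rw [jacobiSym.pow_left, ee, if_neg, js_swap hF (hodd l (hs hl)), mul_pow]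
    rintro rfl
    exact hps hl
  set c : ℤ := jacobiSym 2 p ^ D.factorization 2 *
      (jacobiSym 7 p ^ D.factorization 7 * jacobiSym 3 p ^ D.factorization 3) with hc
  have hcu : c = 1 ∨ c = -1 := by
    rw [hc]
    rcases pm_pow _ (sn_two_unit hF) (D.factorization 2) with h | h <;>
    rcases pm_pow _ (sn_seven_unit hF) (D.factorization 7) with h' | h' <;>
    rcases pm_pow _ (sn_three_unit hF) (D.factorization 3) with h'' | h'' <;>
    rw [h, h', h''] <;> norm_num
  have hc2 : c ^ 2 = 1 := sq_unit hcu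
  have hdec := D_decomp hD
  by_cases hpD : p ∣ D
  · obtain ⟨D', hD1, hD2, hD3, hD4⟩ := sn_div hP hD hDD hp hpD
    have hpS : p ∈ S3 D := mem_S3' hD.ne' (sn_facts hF).2.2.1 (sn_facts hF).2.2.2.1
      (sn_facts hF).2.1 hpp hpD
    have h5 : ∏ l ∈ S3 D, l ^ D.factorization l =
        p * ∏ l ∈ (S3 D).erase p, l ^ D.factorization l := by
      rw [← Finset.mul_prod_erase (S3 D) (fun l => l ^ (D.factorization l)) hpS, hD3, pow_one]
    rw [← Finset.mul_prod_erase (S3 D) (fun l => (ee P l p) ^ (D.factorization l)) hpS,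
      hsw _ (Finset.erase_subset _ _) (Finset.notMem_erase _ _), hD3, pow_one, h5]
    have e0 : ee P p p = jacobiSym (pr (P.erase p) : ℤ) p := by rw [ee, if_pos rfl]
    have e1 : D' = 2 ^ D.factorization 2 * (7 ^ D.factorization 7 * (3 ^ D.factorization 3 *
        ∏ l ∈ (S3 D).erase p, l ^ D.factorization l)) := by
      rw [h5] at hdec
      apply Nat.eq_of_mul_eq_mul_left hpp.pos
      rw [← hD1]
      conv_lhs => rw [hdec]
      ring
    set N := ∏ l ∈ (S3 D).erase p, l ^ D.factorization l with hN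
    have hN0 : N ≠ 0 := Finset.prod_ne_zero_iff.2 fun l hl =>
      pow_ne_zero _ (hne l (Finset.mem_of_mem_erase hl))
    have e2 : jacobiSym (D' : ℤ) p = c * jacobiSym (N : ℤ) p := by
      have : (D' : ℤ) = 2 ^ D.factorization 2 * (7 ^ D.factorization 7 * (3 ^ D.factorization 3 *
        (N : ℤ))) := by
        conv_lhs => rw [e1]
        push_cast
        ring
      rw [this, jacobiSym.mul_left, jacobiSym.mul_left, jacobiSym.mul_left, jacobiSym.pow_left,
        jacobiSym.pow_left, jacobiSym.pow_left, hc]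
      ring
    have hu := js_unit (pr_coprime (A := P.erase p)
      (fun q hq => (sn_facts (hP q (Finset.mem_of_mem_erase hq))).1)
      hpp (Finset.notMem_erase _ _))
    rw [← hD4, e2] at hu
    have hQ : (c * jacobiSym (N : ℤ) p) ^ 2 = 1 := sq_unit hu
    have hQ2 : jacobiSym (N : ℤ) p ^ 2 = 1 := by
      rw [mul_pow, hc2, one_mul] at hQ
      exact hQ
    have hs := uu_self hF
    rw [e0, ← hD4, e2, uu_mul p hpp.ne_zero hN0]
    linear_combination (c * uu p N) * hQ2 - (c * uu p N) * hs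
  · have hpS : p ∉ S3 D := fun h => hpD (mem_S3 h).2.2.2.2
    rw [hsw _ (Finset.Subset.refl _) hpS]
    set N := ∏ l ∈ S3 D, l ^ D.factorization l with hN
    have e2 : jacobiSym (D : ℤ) p = c * jacobiSym (N : ℤ) p := by
      have : (D : ℤ) = 2 ^ D.factorization 2 * (7 ^ D.factorization 7 * (3 ^ D.factorization 3 *
        (N : ℤ))) := by
        conv_lhs => rw [hdec]
        push_cast
        ring
      rw [this, jacobiSym.mul_left, jacobiSym.mul_left, jacobiSym.mul_left, jacobiSym.pow_left,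
        jacobiSym.pow_left, jacobiSym.pow_left, hc]
      ring
    have e1 : (pr P : ℤ) = p * (pr (P.erase p) : ℤ) := by
      rw [pr_erase hp]; push_cast; ring
    have hpb : ¬ (p : ℤ) ∣ b := by
      rintro ⟨c, rfl⟩
      apply hpD
      have : (p : ℤ) ∣ D := by
        rw [hDD, e1]
        exact ⟨9 * pr (P.erase p) - p * c ^ 2, by ring⟩
      exact_mod_cast this
    have e3 : (D : ℤ) % p = (-1 * b ^ 2) % p := by
      rw [hDD, e1]
      have : 9 * ((p : ℤ) * (pr (P.erase p) : ℤ)) - b ^ 2 =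
        -1 * b ^ 2 + p * (9 * (pr (P.erase p) : ℤ)) := by ring
      rw [this, Int.add_mul_emod_self_left]
    have e4 : jacobiSym (b ^ 2) p = 1 := by
      apply jacobiSym.sq_one'
      rw [Int.gcd_comm]
      have := (Int.isCoprime_iff_gcd_eq_one).1
        ((Prime.coprime_iff_not_dvd (Nat.prime_iff_prime_int.1 hpp)).2 hpb)
      exact this
    rw [jacobiSym.mod_left' e3, jacobiSym.mul_left, e4, mul_one] at e2
    rw [e2]
    linear_combination (-(uu p N * jacobiSym (N : ℤ) p)) * hc2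

/-- the total character if the powers of `2` and `7` are odd -/
theorem ee_total' {P : Finset ℕ} (hP : ∀ p ∈ P, SN p) {b : ℤ} {D : ℕ} (hD : 0 < D)
    (hDD : (D : ℤ) = 9 * (pr P : ℤ) - b ^ 2) (h2 : Odd (D.factorization 2))
    (h7 : Odd (D.factorization 7)) {p : ℕ} (hp : p ∈ P) :
    ∏ l ∈ S3 D, (ee P l p) ^ (D.factorization l) =
      uu p (∏ l ∈ S3 D, l ^ D.factorization l) * jacobiSym 3 p ^ D.factorization 3 := by
  have hF := hP p hp
  rw [ee_total hP hD hDD hp]
  obtain ⟨i, hi⟩ := h2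
  obtain ⟨j, hj⟩ := h7
  have e1 : jacobiSym 2 p ^ D.factorization 2 = jacobiSym 2 p := by
    rw [hi, pow_succ, pow_mul, sq_unit (sn_two_unit hF), one_pow, one_mul]
  have e2 : jacobiSym 7 p ^ D.factorization 7 = jacobiSym 7 p := by
    rw [hj, pow_succ, pow_mul, sq_unit (sn_seven_unit hF), one_pow, one_mul]
  have e3 := sn_two_seven hF
  have e4 : jacobiSym (-1) p ^ 2 = 1 := sq_unit (neg_one_unit (sn_facts hF).2.2.2.2.1)
  rw [e1, e2]
  linear_combination (uu p (∏ l ∈ S3 D, l ^ D.factorization l) * jacobiSym (-1) p *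
    jacobiSym 3 p ^ D.factorization 3) * e3 + (uu p (∏ l ∈ S3 D, l ^ D.factorization l) *
    jacobiSym 3 p ^ D.factorization 3) * e4

theorem cnd_mul {A : Finset ℕ} {c c' : ℕ → ℤ} (h1 : ∀ p ∈ sp A, c' p = 1)
    (h3 : ∀ r ∈ i3 A, ∀ r' ∈ i3 A, c' r = c' r') (h5 : ∀ r ∈ i5 A, ∀ r' ∈ i5 A, c' r = c' r')
    (h0 : ∀ p ∈ A, c' p ≠ 0) : cnd A (fun p => c' p * c p) ↔ cnd A c := by
  unfold cnd
  refine and_congr ?_ (and_congr ?_ ?_)
  · refine forall₂_congr fun p hp => ?_
    beta_reduce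
    rw [h1 p hp, one_mul]
  · refine forall₂_congr fun r hr => forall₂_congr fun r' hr' => ?_
    beta_reduce
    rw [h3 r hr r' hr', mul_right_inj' (h0 r' (Finset.mem_filter.1 hr').1)]
  · refine forall₂_congr fun r hr => forall₂_congr fun r' hr' => ?_
    beta_reduce
    rw [h5 r hr r' hr', mul_right_inj' (h0 r' (Finset.mem_filter.1 hr').1)]

theorem cnd_congr {A : Finset ℕ} {c c' : ℕ → ℤ} (h : ∀ p ∈ A, c p = c' p) :
    cnd A c ↔ cnd A c' := by
  have hs : ∀ p ∈ sp A, c p = c' p := fun p hp => h p (Finset.mem_filter.1 hp).1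
  have h3 : ∀ p ∈ i3 A, c p = c' p := fun p hp => h p (Finset.mem_filter.1 hp).1
  have h5 : ∀ p ∈ i5 A, c p = c' p := fun p hp => h p (Finset.mem_filter.1 hp).1
  unfold cnd
  refine and_congr ?_ (and_congr ?_ ?_)
  · exact forall₂_congr fun p hp => by rw [hs p hp]
  · exact forall₂_congr fun r hr => forall₂_congr fun r' hr' => by rw [h3 r hr, h3 r' hr']
  · exact forall₂_congr fun r hr => forall₂_congr fun r' hr' => by rw [h5 r hr, h5 r' hr']

theorem uu_sp {A : Finset ℕ} (N : ℕ) : ∀ p ∈ sp A, uu p N = 1 := by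
  intro p hp
  have := (Finset.mem_filter.1 hp).2
  rw [uu, if_pos (by omega)]

theorem uu_i5 {A : Finset ℕ} (N : ℕ) : ∀ p ∈ i5 A, uu p N = 1 := by
  intro p hp
  have := (Finset.mem_filter.1 hp).2
  rw [uu, if_pos (by omega)]

theorem uu_i3 {A : Finset ℕ} (N : ℕ) : ∀ p ∈ i3 A, uu p N = jacobiSym (-1) N := by
  intro p hp
  have := (Finset.mem_filter.1 hp).2
  rw [uu, if_neg (by omega)]

theorem cnd_uu {A : Finset ℕ} {N : ℕ} (hN : Odd N) {c : ℕ → ℤ} :
    cnd A (fun p => uu p N * c p) ↔ cnd A c := by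
  refine cnd_mul (uu_sp N) (fun r hr r' hr' => ?_) (fun r hr r' hr' => ?_) fun p _ => ?_
  · rw [uu_i3 N r hr, uu_i3 N r' hr']
  · rw [uu_i5 N r hr, uu_i5 N r' hr']
  · rcases uu_unit (p := p) hN with h | h <;> rw [h] <;> norm_num

theorem cnd_one (A : Finset ℕ) : cnd A (fun _ => 1) :=
  ⟨fun _ _ => rfl, fun _ _ _ _ => rfl, fun _ _ _ _ => rfl⟩

/-- the condition in terms of `od D` -/
theorem cond_iff {P : Finset ℕ} (hP : ∀ p ∈ P, SN p) {b : ℤ} {D : ℕ} (hD : 0 < D)
    (hDD : (D : ℤ) = 9 * (pr P : ℤ) - b ^ 2) (h3 : ¬ 3 ∣ D) :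
    ((∀ l ∈ S3 D, Even (D.factorization l)) ∧
      cnd P fun p => ∏ l ∈ S3 D, (ee P l p) ^ (D.factorization l / 2)) ↔
    ∃ y : ℕ, od D = y ^ 2 ∧ Cond y P := by
  have hodd : ∀ l ∈ S3 D, Odd l := by
    intro l hl
    obtain ⟨-, -, h2, hlp, -⟩ := mem_S3 hl
    exact hlp.odd_of_ne_two h2
  have hne : ∀ l ∈ S3 D, l ≠ 0 := fun l hl => (mem_S3 hl).2.2.2.1.ne_zero
  have hoddp : ∀ f : ℕ → ℕ, Odd (∏ l ∈ S3 D, l ^ f l) := by
    intro f
    exact Finset.prod_induction _ Odd (fun _ _ => Odd.mul) odd_one fun l hl => (hodd l hl).pow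
  have hod : od D = ∏ l ∈ S3 D, l ^ D.factorization l := by
    have hdec := D_decomp hD
    rw [Nat.factorization_eq_zero_of_not_dvd h3, pow_zero, one_mul, ← mul_assoc] at hdec
    rw [od]
    apply Nat.div_eq_of_eq_mul_right
    · positivity
    · exact hdec
  have key : (∀ l ∈ S3 D, Even (D.factorization l)) → ∀ p ∈ P,
      ∏ l ∈ S3 D, (ee P l p) ^ (D.factorization l / 2) =
      uu p (∏ l ∈ S3 D, l ^ (D.factorization l / 2)) *
        jacobiSym ((∏ l ∈ S3 D, l ^ (D.factorization l / 2) : ℕ) : ℤ) p := by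
    intro hev p hp
    rw [uu_prod p _ _ hne]
    push_cast
    rw [js_prod_left, ← Finset.prod_mul_distrib]
    refine Finset.prod_congr rfl fun l hl => ?_
    rw [jacobiSym.pow_left, ee, if_neg, js_swap (hP p hp) (hodd l hl), mul_pow]
    rintro rfl
    obtain ⟨D', hD1, hD2, hD3, hD4⟩ := sn_div hP hD hDD hp (mem_S3 hl).2.2.2.2
    have := hev l hl
    rw [hD3] at this
    exact absurd this (by decide)
  have key2 : (∀ l ∈ S3 D, Even (D.factorization l)) →
      ((cnd P fun p => ∏ l ∈ S3 D, (ee P l p) ^ (D.factorization l / 2)) ↔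
        Cond ((∏ l ∈ S3 D, l ^ (D.factorization l / 2) : ℕ) : ℤ) P) := by
    intro hev
    rw [cnd_congr (key hev), cnd_uu (hoddp _)]
    rfl
  constructor
  · rintro ⟨hev, h⟩
    refine ⟨∏ l ∈ S3 D, l ^ (D.factorization l / 2), ?_, (key2 hev).1 h⟩
    rw [hod, ← Finset.prod_pow]
    refine Finset.prod_congr rfl fun l hl => ?_
    rw [← pow_mul, Nat.div_mul_cancel (even_iff_two_dvd.1 (hev l hl))]
  · rintro ⟨y, hy, hyp⟩
    have hdec : D = 2 ^ D.factorization 2 * (7 ^ D.factorization 7 * y ^ 2) := by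
      have hdec := D_decomp hD
      rwa [Nat.factorization_eq_zero_of_not_dvd h3, pow_zero, one_mul, ← hod, hy] at hdec
    have hy0 : y ≠ 0 := by
      rintro rfl
      rw [hdec] at hD
      simp at hD
    have hfac : ∀ l ∈ S3 D, D.factorization l = 2 * y.factorization l := by
      intro l hl
      obtain ⟨-, h7, h2, hlp, -⟩ := mem_S3 hl
      conv_lhs => rw [hdec]
      rw [Nat.factorization_mul (by positivity) (by positivity),
        Nat.factorization_mul (by positivity) (by positivity), Nat.factorization_pow,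
        Nat.factorization_pow, Nat.factorization_pow]
      simp only [Finsupp.add_apply, Finsupp.smul_apply, smul_eq_mul]
      rw [Nat.Prime.factorization Nat.prime_two, Nat.Prime.factorization (by norm_num : Nat.Prime 7),
        Finsupp.single_eq_of_ne h2, Finsupp.single_eq_of_ne h7]
      ring
    have hev : ∀ l ∈ S3 D, Even (D.factorization l) := fun l hl => by
      rw [hfac l hl]; exact even_two_mul _
    have hyy : ∏ l ∈ S3 D, l ^ (D.factorization l / 2) = y := by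
      have e : (∏ l ∈ S3 D, l ^ (D.factorization l / 2)) ^ 2 = y ^ 2 := by
        rw [← hy, hod, ← Finset.prod_pow]
        refine Finset.prod_congr rfl fun l hl => ?_
        rw [← pow_mul, Nat.div_mul_cancel (even_iff_two_dvd.1 (hev l hl))]
      exact Nat.pow_left_injective (n := 2) (by norm_num) e
    refine ⟨hev, (key2 hev).2 ?_⟩
    rw [hyy]
    exact hyp

theorem chi3_eq (n : ℤ) : chi3 n = jacobiSym n 3 := by
  rw [chi3, jacobiSym.mod_left]
  have h : n % (3 : ℕ) = 0 ∨ n % (3 : ℕ) = 1 ∨ n % (3 : ℕ) = 2 := by push_cast; omega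
  have e : n % 3 = n % (3 : ℕ) := by norm_num
  rw [e]
  rcases h with h | h | h <;> rw [h]
  · norm_num
  · norm_num
  · norm_num

/-- the factor at `3` -/
theorem fac_three {D : ℕ} (hD : 0 < D) :
    ∃ c : ℤ, (c = 1 ∨ c = -1) ∧ ∀ D1 : Finset ℕ, fac (3 * pr D1) D 3 =
      1 + (if Even (D.factorization 3) then c else (∏ p ∈ D1, jacobiSym (p : ℤ) 3) * c) := by
  set E := D / 3 ^ D.factorization 3 with hE
  have hE3 : ¬ 3 ∣ E := Nat.not_dvd_ordCompl Nat.prime_three hD.ne'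
  have hu : jacobiSym (-(E : ℤ)) 3 = 1 ∨ jacobiSym (-(E : ℤ)) 3 = -1 := by
    apply jacobiSym.eq_one_or_neg_one
    have : Nat.Coprime E 3 := ((Nat.Prime.coprime_iff_not_dvd Nat.prime_three).2 hE3).symm
    simpa [Int.gcd] using this
  refine ⟨jacobiSym (-(E : ℤ)) 3, hu, fun D1 => ?_⟩
  rw [fac, if_pos (Dvd.intro _ rfl), hh]
  congr 1
  split_ifs with h
  · rfl
  · rw [Nat.mul_div_cancel_left _ (by norm_num), ← hE]
    have : (-((pr D1 * E : ℕ) : ℤ)) = (pr D1 : ℤ) * (-(E : ℤ)) := by push_cast; ring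
    rw [this, jacobiSym.mul_left, js_pr]

theorem pr_sdiff {P D1 : Finset ℕ} (h : D1 ⊆ P) : pr D1 * pr (P \ D1) = pr P := by
  rw [pr, pr, pr, mul_comm]
  exact Finset.prod_sdiff h

/-- GENb -/
theorem t_GENb (a1 : S_ABS1) (a2 : S_ABS2) (a3 : S_ABS3) : Pool.Agent.Z705.S_GENb := by
  classical
  intro P hG _ _ b _ D hD hDD h2
  have hP : ∀ p ∈ P, SN p := fun p hp => ⟨hG.1 p hp, fun h => hG.2 (h ▸ hp)⟩
  have hP8 : ∀ p ∈ P, p % 8 = 1 ∨ p % 8 = 3 ∨ p % 8 = 5 := fun p hp =>
    (sn_facts (hP p hp)).2.2.2.2.2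
  have hadm : ∀ D1 ∈ adm 0 P, D1 ⊆ P := by
    intro D1 h
    rw [adm, Finset.mem_filter, Finset.mem_powerset] at h
    exact h.1
  have h3u : ∀ p ∈ P, jacobiSym (p : ℤ) 3 = 1 ∨ jacobiSym (p : ℤ) 3 = -1 := fun p hp =>
    unit_of (sn_facts (hP p hp)).1 Nat.prime_three (sn_facts (hP p hp)).2.2.1
  -- the two basic sums
  obtain ⟨N1, hN1, hN1'⟩ := a1 (S3 D) (fun i => D.factorization i)
    (fun i => jacobiSym (-3) i) (fun i p => ee P i p) (fun _ => 1) P 0 (Or.inl rfl) hP8
    (fun i => s_unit i.2) (fun i p hp => ee_unit hP i.2 hp) (fun p _ => Or.inl rfl)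
  obtain ⟨N3, hN3, hN3'⟩ := a1 (S3 D) (fun i => D.factorization i)
    (fun i => jacobiSym (-3) i) (fun i p => ee P i p) (fun p => jacobiSym (p : ℤ) 3) P 0
    (Or.inl rfl) hP8 (fun i => s_unit i.2) (fun i p hp => ee_unit hP i.2 hp) h3u
  have hNodd : Odd (∏ l ∈ S3 D, l ^ D.factorization l) :=
    Finset.prod_induction _ Odd (fun _ _ => Odd.mul) odd_one fun l hl =>
      ((mem_S3 hl).2.2.2.1.odd_of_ne_two (mem_S3 hl).2.2.1).pow
  have hprod : ∀ D1 ∈ adm 0 P, ∏ i : S3 D, ∑ j ∈ range (D.factorization i + 1),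
        (jacobiSym (-3) i * ∏ p ∈ D1, ee P i p) ^ j = ∏ l ∈ S3 D, fac (3 * pr D1) D l := by
    intro D1 hD1
    rw [← Finset.prod_coe_sort (S3 D) (fun l => fac (3 * pr D1) D l)]
    refine Finset.prod_congr rfl fun i _ => ?_
    exact (fac_eq hP hD hDD i.2 (hadm D1 hD1)).symm
  have hM1 : ∑ D1 ∈ adm 0 P, ∏ l ∈ S3 D, fac (3 * pr D1) D l = 2 ^ ex P * N1 := by
    rw [← hN1]
    refine Finset.sum_congr rfl fun D1 hD1 => ?_
    rw [Finset.prod_const_one, one_mul, hprod D1 hD1]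
  have hM3 : ∑ D1 ∈ adm 0 P, (∏ p ∈ D1, jacobiSym (p : ℤ) 3) * ∏ l ∈ S3 D, fac (3 * pr D1) D l =
      2 ^ ex P * N3 := by
    rw [← hN3]
    refine Finset.sum_congr rfl fun D1 hD1 => ?_
    rw [hprod D1 hD1]
  have hee : ∀ p, (∏ i : S3 D, (ee P i p) ^ (D.factorization i)) =
      ∏ l ∈ S3 D, (ee P l p) ^ (D.factorization l) := fun p =>
    Finset.prod_coe_sort (S3 D) (fun l => (ee P l p) ^ (D.factorization l))
  by_cases hb3 : (3 : ℤ) ∣ b
  · have hfalse : ¬ (¬ (3 : ℤ) ∣ b ∧ ∃ y : ℕ, od D = y ^ 2 ∧ Cond y P) := fun h => h.1 hb3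
    have hbm : b % 3 = 0 := Int.emod_eq_zero_of_dvd hb3
    -- if all weights vanish
    have hzero : (∀ D1 ∈ adm 0 P, wt (pr D1) (pr (P \ D1)) b = 0) →
        ∃ n : ℤ, ∑ D1 ∈ adm 0 P, wt (pr D1) (pr (P \ D1)) b *
      ∏ l ∈ (D.primeFactors.erase 2).erase 7, fac (3 * pr D1) D l = 2 ^ ex P * n ∧
    (Odd (D.factorization 7) → (Odd n ↔ (¬ (3 : ℤ) ∣ b ∧ ∃ y : ℕ, od D = y ^ 2 ∧ Cond y P))) := by
      intro h
      refine ⟨0, ?_, fun _ => ⟨fun h' => absurd h' (by decide), fun h' => absurd h' hfalse⟩⟩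
      rw [mul_zero]
      exact Finset.sum_eq_zero fun D1 hD1 => by rw [h D1 hD1, zero_mul]
    have hp3 : ∀ D1 ⊆ P, pr D1 % 3 ≠ 0 := by
      intro D1 h1 h
      have hc : Nat.Coprime (pr D1) 3 := pr_coprime (fun q hq => (sn_facts (hP q (h1 hq))).1)
        Nat.prime_three (fun h' => (sn_facts (hP 3 (h1 h'))).2.2.1 rfl)
      have : 3 ∣ pr D1 := Nat.dvd_of_mod_eq_zero h
      have h5 := Nat.Coprime.eq_one_of_dvd hc.symm this
      omega
    have hmul : ∀ D1 ∈ adm 0 P, (pr D1 % 3) * (pr (P \ D1) % 3) % 3 = pr P % 3 := by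
      intro D1 hD1
      rw [← Nat.mul_mod, pr_sdiff (hadm D1 hD1)]
    by_cases hM : pr P % 3 = 2
    · apply hzero
      intro D1 hD1
      rw [wt, if_pos hbm, if_neg]
      intro h
      have h5 := hmul D1 hD1
      have h6 := hp3 D1 (hadm D1 hD1)
      rw [← h, hM] at h5
      have h7 : pr D1 % 3 = 1 ∨ pr D1 % 3 = 2 := by omega
      rcases h7 with h7 | h7 <;> rw [h7] at h5 <;> omega
    by_cases hb9 : (9 : ℤ) ∣ b
    · apply hzero
      intro D1 hD1
      rw [wt, if_pos hbm]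
      split_ifs
      · obtain ⟨c, rfl⟩ := hb9
        have : (9 * c) / 3 = 3 * c := by omega
        rw [this, chi3, if_neg, if_neg]
        · have : (pr D1 : ℤ) * (3 * c) = 3 * (pr D1 * c) := by ring
          rw [this]
          omega
        · have : (pr D1 : ℤ) * (3 * c) = 3 * (pr D1 * c) := by ring
          rw [this]
          omega
      · rfl
    -- `3` divides `b` exactly once and `pr P = 1 mod 3`
    have hM1' : pr P % 3 = 1 := by
      have := hp3 P (Finset.Subset.refl _)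
      omega
    have hw : ∀ D1 ∈ adm 0 P, wt (pr D1) (pr (P \ D1)) b =
        (∏ p ∈ D1, jacobiSym (p : ℤ) 3) * chi3 (b / 3) := by
      intro D1 hD1
      have h5 := hmul D1 hD1
      have h6 := hp3 D1 (hadm D1 hD1)
      have h6' := hp3 (P \ D1) Finset.sdiff_subset
      rw [wt, if_pos hbm, if_pos, chi3_eq, jacobiSym.mul_left, js_pr, chi3_eq]
      rw [hM1'] at h5
      have h7 : pr D1 % 3 = 1 ∨ pr D1 % 3 = 2 := by omega
      have h8 : pr (P \ D1) % 3 = 1 ∨ pr (P \ D1) % 3 = 2 := by omega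
      rcases h7 with h7 | h7 <;> rcases h8 with h8 | h8 <;> rw [h7, h8] at h5 ⊢ <;> omega
    have hD3 : 3 ∣ D := by
      obtain ⟨c, rfl⟩ := hb3
      have : (3 : ℤ) ∣ D := ⟨3 * pr P - 3 * c ^ 2, by rw [hDD]; ring⟩
      exact_mod_cast this
    have hmem : 3 ∈ (D.primeFactors.erase 2).erase 7 := by
      rw [Finset.mem_erase, Finset.mem_erase, Nat.mem_primeFactors]
      exact ⟨by norm_num, by norm_num, Nat.prime_three, hD3, hD.ne'⟩
    obtain ⟨c, hc, hfac⟩ := fac_three hD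
    have hterm : ∀ D1 ∈ adm 0 P, wt (pr D1) (pr (P \ D1)) b *
        ∏ l ∈ (D.primeFactors.erase 2).erase 7, fac (3 * pr D1) D l =
        chi3 (b / 3) * ((∏ p ∈ D1, jacobiSym (p : ℤ) 3) *
          (1 + (if Even (D.factorization 3) then c else (∏ p ∈ D1, jacobiSym (p : ℤ) 3) * c)) *
          ∏ l ∈ S3 D, fac (3 * pr D1) D l) := by
      intro D1 hD1
      rw [← Finset.mul_prod_erase _ _ hmem, hfac D1, hw D1 hD1]
      have : ∏ l ∈ ((D.primeFactors.erase 2).erase 7).erase 3, fac (3 * pr D1) D l =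
        ∏ l ∈ S3 D, fac (3 * pr D1) D l := rfl
      rw [this]
      ring
    rw [Finset.sum_congr rfl hterm, ← Finset.mul_sum]
    by_cases hv : Even (D.factorization 3)
    · -- even power of three
      simp only [if_pos hv]
      have e1 : ∑ D1 ∈ adm 0 P, (∏ p ∈ D1, jacobiSym (p : ℤ) 3) * (1 + c) *
          ∏ l ∈ S3 D, fac (3 * pr D1) D l = (1 + c) * (2 ^ ex P * N3) := by
        rw [← hM3, Finset.mul_sum]
        exact Finset.sum_congr rfl fun D1 _ => by ring
      refine ⟨chi3 (b / 3) * ((1 + c) * N3), by rw [e1]; ring, fun _ => ⟨fun h => ?_, fun h => absurd h hfalse⟩⟩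
      exfalso
      have hev : Even (chi3 (b / 3) * ((1 + c) * N3)) := by
        rcases hc with h' | h' <;> rw [h']
        · exact ⟨chi3 (b / 3) * N3, by ring⟩
        · exact ⟨0, by ring⟩
      exact (Int.not_even_iff_odd.2 h) hev
    · -- odd power of three
      simp only [if_neg hv]
      have e1 : ∑ D1 ∈ adm 0 P, (∏ p ∈ D1, jacobiSym (p : ℤ) 3) *
          (1 + (∏ p ∈ D1, jacobiSym (p : ℤ) 3) * c) *
          ∏ l ∈ S3 D, fac (3 * pr D1) D l = 2 ^ ex P * N3 + c * (2 ^ ex P * N1) := by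
        rw [← hM3, ← hM1, Finset.mul_sum, ← Finset.sum_add_distrib]
        refine Finset.sum_congr rfl fun D1 hD1 => ?_
        have hu := sq_unit (pm_prod D1 (fun p => jacobiSym (p : ℤ) 3)
          (fun p hp => h3u p (hadm D1 hD1 hp)))
        linear_combination (c * ∏ l ∈ S3 D, fac (3 * pr D1) D l) * hu
      refine ⟨chi3 (b / 3) * (N3 + c * N1), by rw [e1]; ring,
        fun h7 => ⟨fun h => ?_, fun h => absurd h hfalse⟩⟩
      exfalso
      have hvo : Odd (D.factorization 3) := Nat.not_even_iff_odd.1 hv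
      have hcard : (TC (ι := S3 D) (fun i => D.factorization i) (fun i p => ee P i p)
          (fun _ => 1) P).card = (TC (ι := S3 D) (fun i => D.factorization i)
          (fun i p => ee P i p) (fun p => jacobiSym (p : ℤ) 3) P).card := by
        refine a3 (S3 D) (fun i => D.factorization i) (fun i p => ee P i p) (fun _ => 1)
          (fun p => jacobiSym (p : ℤ) 3) P hP8 (fun i p hp => ee_unit hP i.2 hp)
          (fun _ _ => Or.inl rfl) h3u ?_
        obtain ⟨i, hi⟩ := hvo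
        have h3o : Odd (3 * ∏ l ∈ S3 D, l ^ D.factorization l) := (by decide : Odd 3).mul hNodd
        have h3n : (∏ l ∈ S3 D, l ^ D.factorization l) ≠ 0 := hNodd.pos.ne'
        refine (cnd_congr (c' := fun p => uu p (3 * ∏ l ∈ S3 D, l ^ D.factorization l) * 1)
          fun p hp => ?_).2 ((cnd_uu h3o).2 (cnd_one P))
        beta_reduce
        rw [hee p, ee_total' hP hD hDD h2 h7 hp, one_mul, uu_mul p (by norm_num) h3n,
          js_swap (hP p hp) (by decide : Odd 3), hi, pow_succ, pow_mul,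
          sq_unit (sn_three_unit (hP p hp)), one_pow, one_mul]
        have h33 : jacobiSym ((3 : ℕ) : ℤ) p = jacobiSym 3 p := rfl
        rw [h33]
        have h3s := sq_unit (sn_three_unit (hP p hp))
        linear_combination (uu p 3 * uu p (∏ l ∈ S3 D, l ^ D.factorization l)) * h3s
      have hpar : Odd N3 ↔ Odd N1 := by rw [hN3', hN1', hcard]
      have hev : Even (N3 + c * N1) := by
        have hcN : Odd (c * N1) ↔ Odd N1 := by
          rcases hc with h' | h' <;> rw [h']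
          · rw [one_mul]
          · rw [neg_one_mul, odd_neg]
        rw [Int.even_add, ← Int.not_odd_iff_even, ← Int.not_odd_iff_even, hcN, hpar]
      exact (Int.not_even_iff_odd.2 h) (hev.mul_left _)
  · have hD3 : ¬ 3 ∣ D := by
      intro h
      apply hb3
      have : (3 : ℤ) ∣ b ^ 2 := by
        have h1 : (3 : ℤ) ∣ D := by exact_mod_cast h
        have : b ^ 2 = 9 * (pr P : ℤ) - D := by rw [hDD]; ring
        rw [this]
        exact dvd_sub ⟨3 * pr P, by ring⟩ h1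
      exact Int.prime_three.dvd_of_dvd_pow this
    have hnm : 3 ∉ (D.primeFactors.erase 2).erase 7 := by
      rw [Finset.mem_erase, Finset.mem_erase, Nat.mem_primeFactors]
      rintro ⟨-, -, -, h, -⟩
      exact hD3 h
    have hS : (D.primeFactors.erase 2).erase 7 = S3 D := by
      rw [S3, Finset.erase_eq_of_notMem hnm]
    have hbm : ¬ b % 3 = 0 := fun h => hb3 (Int.dvd_of_emod_eq_zero h)
    have hw : ∀ D1 : Finset ℕ, wt (pr D1) (pr (P \ D1)) b = -chi3 b := fun D1 => by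
      rw [wt, if_neg hbm]
    have hcb : chi3 b = 1 ∨ chi3 b = -1 := by
      rw [chi3]
      have : b % 3 = 1 ∨ b % 3 = 2 := by omega
      rcases this with h | h <;> rw [h] <;> norm_num
    refine ⟨-chi3 b * N1, ?_, fun h7 => ?_⟩
    · rw [hS]
      simp only [hw]
      rw [← Finset.mul_sum, hM1]
      ring
    · have hodd : Odd (-chi3 b * N1) ↔ Odd N1 := by
        rcases hcb with h' | h' <;> rw [h']
        · rw [neg_one_mul, odd_neg]
        · rw [neg_neg, one_mul]
      have hcp := a2 (S3 D) (fun i => D.factorization i) (fun i p => ee P i p) P hP8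
        (fun i p hp => ee_unit hP i.2 hp) ((cnd_congr
          (c' := fun p => uu p (∏ l ∈ S3 D, l ^ D.factorization l) * 1) fun p hp => by
          beta_reduce
          rw [hee p, ee_total' hP hD hDD h2 h7 hp,
            Nat.factorization_eq_zero_of_not_dvd hD3, pow_zero]).2 ((cnd_uu hNodd).2 (cnd_one P)))
      rw [hodd, hN1', hcp, ← cond_iff hP hD hDD hD3]
      have hfun : (fun p => ∏ i : S3 D, (ee P i p) ^ (D.factorization i / 2)) =
          fun p => ∏ l ∈ S3 D, (ee P l p) ^ (D.factorization l / 2) := by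
        funext p
        exact Finset.prod_coe_sort (S3 D) (fun l => (ee P l p) ^ (D.factorization l / 2))
      rw [hfun]
      constructor
      · rintro ⟨h1, h2⟩
        exact ⟨hb3, fun l hl => h1 ⟨l, hl⟩, h2⟩
      · rintro ⟨-, h1, h2⟩
        exact ⟨fun i => h1 i.1 i.2, h2⟩

end Pool.Agent.Y614.Z705
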